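import Pool.Agent.R28.CenterUqF

/-!
# The center of the positive part of U_q(sl2^) is trivial

Let `K` be a field (not necessarily algebraically closed, any characteristic), and let `q` be a
nonzero element of `K` that is not a root of unity.  The algebra `U^+` is the quotient of the free
algebra on two generators `A`, `A*` by the two q-Serre relations.  We show that its center is
`K 1`, and that `K → U^+` is injective.
-/

namespace Pool.Agent.Results.MP_cafee0_al.TrivialCenter

universe u

/-- `[3]_q = q^2 + 1 + q^(-2)`. -/
def qThree {K : Type u} [Field K] (q : K) : K := q ^ 2 + 1 + (q ^ 2)⁻¹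

/-- The first free generator, `A`. -/
def genA (K : Type u) [Field K] : FreeAlgebra K (Fin 2) := FreeAlgebra.ι K 0

/-- The second free generator, `A*`. -/
def genB (K : Type u) [Field K] : FreeAlgebra K (Fin 2) := FreeAlgebra.ι K 1

/-- The q-Serre relations
`A^3 A* - [3] A^2 A* A + [3] A A* A^2 - A* A^3 = 0` and
`A*^3 A - [3] A*^2 A A* + [3] A* A A*^2 - A A*^3 = 0`. -/
inductive SerreRel {K : Type u} [Field K] (q : K) :
    FreeAlgebra K (Fin 2) → FreeAlgebra K (Fin 2) → Prop
  | rel1 : SerreRel q
      (genA K ^ 3 * genB K - qThree q • (genA K ^ 2 * genB K * genA K)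
        + qThree q • (genA K * genB K * genA K ^ 2) - genB K * genA K ^ 3) 0
  | rel2 : SerreRel q
      (genB K ^ 3 * genA K - qThree q • (genB K ^ 2 * genA K * genB K)
        + qThree q • (genB K * genA K * genB K ^ 2) - genA K * genB K ^ 3) 0

/-- The algebra `U^+`: the free algebra on `A`, `A*` modulo the two-sided ideal generated by the
q-Serre relations. -/
abbrev UPlus {K : Type u} [Field K] (q : K) : Type u := RingQuot (SerreRel q)

lemma rel_eq {K : Type u} [Field K] (q : K) : SerreRel q = Pool.Agent.R28.CenterUq.Rel q := by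
  funext x y
  apply propext
  constructor
  · rintro (_ | _)
    · exact Pool.Agent.R28.CenterUq.Rel.one
    · exact Pool.Agent.R28.CenterUq.Rel.two
  · rintro (_ | _)
    · exact SerreRel.rel1
    · exact SerreRel.rel2

lemma aux {K : Type u} [Field K] (q : K) (hq : q ≠ 0) (hroot : ∀ n : ℕ, 0 < n → q ^ n ≠ 1)
    (r : FreeAlgebra K (Fin 2) → FreeAlgebra K (Fin 2) → Prop)
    (hr : r = Pool.Agent.R28.CenterUq.Rel q) :
    Subalgebra.center K (RingQuot r) = ⊥ ∧ Function.Injective (algebraMap K (RingQuot r)) := by
  subst hr
  constructor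
  · rw [eq_bot_iff]
    intro z hz
    rw [Subalgebra.mem_center_iff] at hz
    rw [Algebra.mem_bot]
    exact ⟨_, (Pool.Agent.R28.CenterUq.central_scalar hq hroot z (fun i => hz _)).symm⟩
  · intro x y hxy
    have h := congrArg (Pool.Agent.R28.CenterUq.eps q) hxy
    have e : ∀ x : K, Pool.Agent.R28.CenterUq.eps q
        (algebraMap K (Pool.Agent.R28.CenterUq.Uq q) x) = x := fun x =>
      (Pool.Agent.R28.CenterUq.eps q).commutes x
    exact (e x).symm.trans (h.trans (e y))

/-- For every field `K` and every nonzero `q` in `K` that is not a root of unity, the center of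
`U^+` is the set of scalars `K 1` (so it is generated as a `K`-algebra by the empty set), and the
map `K → U^+` is injective. -/
theorem result {K : Type u} [Field K] (q : K) (hq : q ≠ 0)
    (hroot : ∀ n : ℕ, 0 < n → q ^ n ≠ 1) :
    Subalgebra.center K (UPlus q) = ⊥ ∧
    Subalgebra.center K (UPlus q) = Algebra.adjoin K (∅ : Set (UPlus q)) ∧
    Function.Injective (algebraMap K (UPlus q)) := by
  obtain ⟨h1, h2⟩ := aux q hq hroot (SerreRel q) (rel_eq q)
  exact ⟨h1, by rw [h1, Algebra.adjoin_empty], h2⟩

end Pool.Agent.Results.MP_cafee0_al.TrivialCenter
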